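import Mathlib
import Pool.Agent.Lib.MP_2a1a00_nt.D.Fin

/-!
Twisted hybrid moments of an error term of degree two and of the error term of the divisor problem
of order three, the second to a power up to three.
-/

namespace Pool.Agent.Results.MP_2a1a00_nt.CubeTwist

open Pool.Agent.Lib.MP_2a1a00_nt

theorem result : 0 < c3 ∧ ∀ (F L : Sel) (P : Polynomial ℝ) (η : ℝ) (a b : ℕ) (c : ℂ),
    F.deg = 2 → L.deg ≤ 1 → L.QP → 0 < η → L.Msq P η → 1 ≤ b → b ≤ 3 → 3 * a + 5 * b ≤ 21 →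
    (((a = 1 ∨ b = 1) ∧ c = 0) ∨ ∃ M N : ℂ, Mo F.E a (a / 4) M ∧
      ((b = 2 ∧ Mo (Del 3) 2 (2 / 3) N) ∨ (b = 3 ∧ N = c3)) ∧
        c = (1 + a / 4) * (1 + b / 3) * M * N) →
    Asy (fun x => F.E x ^ a * Del 3 x ^ b * L.sq x) (1 + a / 4 + b / 3) c P :=
  ⟨c3_pos, fun _ _ _ _ _ _ _ h hL hq hη hP h1 h3 hab hc => main_tw h hL hq hη hP h1 h3 hab hc⟩

end Pool.Agent.Results.MP_2a1a00_nt.CubeTwist
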