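import Mathlib
import Pool.Agent.Lib.MP_2a1a00_nt.V.Q3

/-!
A power saving for twisted hybrid moments of higher order, degrees two and three, when one of the
two exponents is one.
-/

namespace Pool.Agent.Results.MP_2a1a00_nt.HigherOne

open Pool.Agent.Lib.MP_2a1a00_nt

theorem result (F₁ F₂ L : Sel) (a b : ℕ) (h₁ : F₁.deg = 2) (h₂ : F₂.deg = 3) (hL : L.deg ≤ 1)
    (hab : (b = 1 ∧ (a ≤ 3 ∨ (a ≤ 4 ∧ L.QP))) ∨ (a = 1 ∧ b = 2 ∧ F₂.Split)) :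
    (∀ T : ℝ, 1 ≤ T → IntervalIntegrable (hy F₁ F₂ L a b) MeasureTheory.volume 1 T) ∧
      ∃ δ : ℝ, 0 < δ ∧ ∃ C : ℝ, ∀ T : ℝ, 1 ≤ T →
        ‖∫ x in (1 : ℝ)..T, hy F₁ F₂ L a b x‖ ≤ C * T ^ (1 + ((a : ℝ) / 4 + (b : ℝ) / 3) - δ) :=
  ⟨fun _ hT => (hy_int F₁ F₂ L a b le_rfl hT).1, 1 / 2000000, by norm_num, by
    simpa only [add_assoc] using main_one h₁ h₂ hL hab⟩

end Pool.Agent.Results.MP_2a1a00_nt.HigherOne
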