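import Mathlib
import Pool.Agent.Lib.MP_2a1a00_nt.R.G

/-!
The asymptotic formula for the twisted mixed moment of the error terms of the divisor problems of
orders two and three.
-/

namespace Pool.Agent.Results.MP_2a1a00_nt.Resonance

open Pool.Agent.Lib.MP_2a1a00_nt

theorem result : 0 < cc ∧ ∀ (L : Sel) (P : Polynomial ℝ), L.deg ≤ 1 →
    (∃ η : ℝ, 0 < η ∧ ∃ C : ℝ, ∀ T : ℝ, 1 ≤ T →
      |(∫ t in (1 : ℝ)..T, ‖L.L (1 / 2 + t * Complex.I)‖ ^ 2) - T * P.eval (Real.log T)| ≤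
        C * T ^ (1 - η)) →
    (∀ T : ℝ, 1 ≤ T → IntervalIntegrable (hz3 L) MeasureTheory.volume 1 T) ∧
      Filter.Tendsto (fun T : ℝ => (∫ x in (1 : ℝ)..T, hz3 L x) /
        ((T ^ (3 / 2 : ℝ) * Real.log T ^ (2 + P.natDegree) : ℝ) : ℂ)) Filter.atTop
        (nhds ((cc * P.leadingCoeff : ℝ) : ℂ)) :=
  ⟨cc_pos, fun L P hL ⟨_, hη, _, h⟩ => main_res L P hL hη h⟩

end Pool.Agent.Results.MP_2a1a00_nt.Resonance
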