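import Mathlib
import Pool.Agent.Lib.MP_2a1a00_nt.S.Fin

/-!
The asymptotic formula for twisted hybrid moments of even powers of any number of error terms whose
degrees grow fast enough with respect to the savings in the given formulas.
-/

namespace Pool.Agent.Results.MP_2a1a00_nt.Tower

open Pool.Agent.Lib.MP_2a1a00_nt

theorem result (L : Sel) (P : Polynomial ℝ) (η : ℝ) (k : ℕ) (F : ℕ → Sel) (l : ℕ → ℕ) (C : ℕ → ℂ)
    (δ u : ℕ → ℝ) (hη : 0 < η) (hL : L.Msq P η)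
    (hF : ∀ j < k, 2 ≤ (F j).deg ∧ Even (l j) ∧ 2 ≤ l j ∧ 0 < δ j ∧ (F j).Mom (l j) (C j) (δ j))
    (hu : 0 ≤ u k)
    (h : ((∀ j < k, (F j).RE) ∧ u 0 < η ∧ Chain F l δ u 0 k) ∨
      (2 ≤ k ∧ (2 < k → ∀ j < k, (F j).RE) ∧ L.deg ≤ 1 ∧ L.QP ∧ (F 0).deg = 2 ∧ (F 1).deg = 3 ∧
        (F 1).Split ∧ l 0 = 2 ∧ l 1 = 2 ∧ u 2 < min (min 1 η) (min (δ 0) (δ 1)) / 10 ^ 7 ∧
        Chain F l δ u 2 k)) :
    Asy (fun x => (∏ j ∈ Finset.range k, (F j).E x ^ l j) * (L.sq x : ℝ))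
      (1 + ∑ j ∈ Finset.range k, (F j).ex (l j))
      (∏ j ∈ Finset.range k, (1 + (F j).ex (l j) : ℝ) * C j) P :=
  tower_main hη hL hF hu h

end Pool.Agent.Results.MP_2a1a00_nt.Tower
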